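import Pool.Agent.Work.MP_bec1e1_lv_helper15.LUInterface

/-!
# Block LU_COL: the coloured union bound
-/

set_option autoImplicit false
set_option maxHeartbeats 400000

open scoped BigOperators

namespace Pool.Agent.LCSV

namespace H63C

open Pool.Agent.LCSE

lemma ind_true' {P : Prop} (h : P) : ind P = 1 := by unfold ind; rw [if_pos h]

lemma ind_false' {P : Prop} (h : ¬ P) : ind P = 0 := by unfold ind; rw [if_neg h]

lemma ind_nn (P : Prop) : 0 ≤ ind P := by unfold ind; split_ifs <;> norm_num

lemma ind_le_one (P : Prop) : ind P ≤ 1 := by unfold ind; split_ifs <;> norm_num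

/-! ### product expectations -/

section PWapi
variable {ι C : Type} [Fintype ι] [DecidableEq ι] [Fintype C]

lemma PW_add (w : ι → C → ℝ) (f g : (ι → C) → ℝ) :
    PW w (fun c => f c + g c) = PW w f + PW w g := by
  unfold PW
  rw [← Finset.sum_add_distrib]
  exact Finset.sum_congr rfl fun c _ => by ring

lemma PW_const_mul (w : ι → C → ℝ) (a : ℝ) (f : (ι → C) → ℝ) :
    PW w (fun c => a * f c) = a * PW w f := by
  unfold PW
  rw [Finset.mul_sum]
  exact Finset.sum_congr rfl fun c _ => by ring

lemma PW_mono {w : ι → C → ℝ} (hw : ∀ i c, 0 ≤ w i c) {f g : (ι → C) → ℝ}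
    (h : ∀ c, f c ≤ g c) : PW w f ≤ PW w g := by
  unfold PW
  apply Finset.sum_le_sum
  intro c _
  exact mul_le_mul_of_nonneg_left (h c) (Finset.prod_nonneg fun i _ => hw i _)

lemma PW_sum {κ : Type} (s : Finset κ) (w : ι → C → ℝ) (f : κ → (ι → C) → ℝ) :
    PW w (fun c => ∑ j ∈ s, f j c) = ∑ j ∈ s, PW w (f j) := by
  unfold PW
  rw [Finset.sum_comm]
  exact Finset.sum_congr rfl fun c _ => by rw [Finset.mul_sum]

lemma PW_prodfun (w : ι → C → ℝ) (h : ι → C → ℝ) :
    PW w (fun c => ∏ i, h i (c i)) = ∏ i, ∑ c, w i c * h i c := by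
  unfold PW
  rw [Finset.prod_univ_sum, Fintype.piFinset_univ]
  exact Finset.sum_congr rfl fun c _ => by rw [Finset.prod_mul_distrib]

lemma PW_one {w : ι → C → ℝ} (hw : ∀ i, ∑ c, w i c = 1) : PW w (fun _ => 1) = 1 := by
  have h := PW_prodfun w (fun _ _ => 1)
  simp only [Finset.prod_const_one, mul_one, hw] at h
  exact h

lemma PW_const {w : ι → C → ℝ} (hw : ∀ i, ∑ c, w i c = 1) (a : ℝ) : PW w (fun _ => a) = a := by
  have h := PW_const_mul w a (fun _ => 1)
  simpa [PW_one hw] using h

/-- independence of functions of disjoint sets of coordinates -/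
lemma PW_mul {w : ι → C → ℝ} (hw : ∀ i, ∑ c, w i c = 1) (Λ : Finset ι) {f g : (ι → C) → ℝ}
    (hf : ∀ c c' : ι → C, (∀ i ∈ Λ, c i = c' i) → f c = f c')
    (hg : ∀ c c' : ι → C, (∀ i, i ∉ Λ → c i = c' i) → g c = g c') :
    PW w (fun c => f c * g c) = PW w f * PW w g := by
  classical
  have h1 : PW w f * PW w g = ∑ cc : (ι → C) × (ι → C),
      ((∏ i, w i (cc.1 i)) * (∏ i, w i (cc.2 i))) * (f cc.1 * g cc.2) := by
    unfold PW
    rw [Finset.sum_mul_sum, ← Finset.univ_product_univ, Finset.sum_product]
    exact Finset.sum_congr rfl fun c _ => Finset.sum_congr rfl fun c' _ => by ring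
  have h2 : PW w (fun c => f c * g c) = ∑ cc : (ι → C) × (ι → C),
      ((∏ i, w i (cc.1 i)) * (∏ i, w i (cc.2 i))) * (f cc.1 * g cc.1) := by
    have h3 : PW w (fun c => f c * g c) = PW w (fun c => f c * g c) * PW w (fun _ => 1) := by
      rw [PW_one hw, mul_one]
    rw [h3]
    unfold PW
    rw [Finset.sum_mul_sum, ← Finset.univ_product_univ, Finset.sum_product]
    exact Finset.sum_congr rfl fun c _ => Finset.sum_congr rfl fun c' _ => by ring
  set e : ((ι → C) × (ι → C)) → ((ι → C) × (ι → C)) :=
    fun cc => (Λ.piecewise cc.1 cc.2, Λ.piecewise cc.2 cc.1) with he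
  have hinv : Function.Involutive e := by
    rintro ⟨c, c'⟩
    simp only [he, Prod.mk.injEq]
    constructor
    · funext i
      by_cases hi : i ∈ Λ <;> simp [Finset.piecewise, hi]
    · funext i
      by_cases hi : i ∈ Λ <;> simp [Finset.piecewise, hi]
  rw [h1, h2, ← Equiv.sum_comp hinv.toPerm]
  refine Finset.sum_congr rfl ?_
  rintro ⟨c, c'⟩ _
  simp only [Function.Involutive.coe_toPerm, he]
  congr 1
  · rw [← Finset.prod_mul_distrib, ← Finset.prod_mul_distrib]
    refine Finset.prod_congr rfl fun i _ => ?_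
    by_cases hi : i ∈ Λ
    · simp [Finset.piecewise, hi]
    · simp only [Finset.piecewise, hi, if_false]
      ring
  · congr 1
    · apply hf
      intro i hi
      simp [Finset.piecewise, hi]
    · apply hg
      intro i hi
      simp [Finset.piecewise, hi]

/-- independence of a family -/
lemma PW_prod {κ : Type} [DecidableEq κ] {w : ι → C → ℝ} (hw : ∀ i, ∑ c, w i c = 1)
    (s : Finset κ) (Λ : κ → Finset ι) (g : κ → (ι → C) → ℝ)
    (hΛ : ∀ j j' : κ, j ≠ j' → Disjoint (Λ j) (Λ j'))
    (hg : ∀ j, ∀ c c' : ι → C, (∀ i ∈ Λ j, c i = c' i) → g j c = g j c') :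
    PW w (fun c => ∏ j ∈ s, g j c) = ∏ j ∈ s, PW w (g j) := by
  induction s using Finset.induction_on with
  | empty => simpa using PW_one hw
  | insert j s hj ih =>
    simp only [Finset.prod_insert hj]
    rw [PW_mul hw (Λ j) (hg j), ih]
    intro c c' hcc
    apply Finset.prod_congr rfl
    intro j' hj'
    apply hg
    intro i hi
    apply hcc
    intro hi'
    have hne : j ≠ j' := fun h => hj (h ▸ hj')
    exact (Finset.disjoint_left.mp (hΛ j j' hne)) hi' hi

/-- image of a product law under a map of the coordinates -/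
lemma PW_map {C' : Type} [Fintype C'] [DecidableEq C'] (w : ι → C → ℝ) (w' : ι → C' → ℝ)
    (φ : C → C') (hw : ∀ i b, w' i b = ∑ c ∈ Finset.univ.filter (fun c => φ c = b), w i c)
    (G : (ι → C') → ℝ) : PW w' G = PW w (fun c => G fun i => φ (c i)) := by
  classical
  unfold PW
  rw [← Finset.sum_fiberwise (s := Finset.univ) (g := fun c : ι → C => fun i => φ (c i))]
  refine Finset.sum_congr rfl fun b _ => ?_
  rw [Finset.prod_congr rfl (fun i _ => hw i (b i)), Finset.prod_univ_sum, Finset.sum_mul]
  refine Finset.sum_congr ?_ ?_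
  · ext c
    simp only [Fintype.mem_piFinset, Finset.mem_filter, Finset.mem_univ, true_and]
    constructor
    · intro h; funext i; exact h i
    · intro h i; exact congrFun h i
  · intro c hc
    rw [Finset.mem_filter] at hc
    rw [← hc.2]

end PWapi

lemma Ex_le_const0 {k n : ℕ} {f : List (Fin k) → ℝ} {c : ℝ} (hc : 0 ≤ c)
    (h : ∀ w, w.length = n → f w ≤ c) : Ex k n f ≤ c := by
  rcases Nat.eq_zero_or_pos k with rfl | hk
  · cases n with
    | zero => exact h [] rfl
    | succ n => rw [Ex_succ]; simpa using hc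
  · exact Ex_le_const hk h

/-! ### colours -/

lemma bw_map (N : ℕ) (hN : 1 ≤ N) (c₀ : Fin N) (b : Bool) :
    bw (1 / (N : ℝ)) b =
      ∑ _c ∈ Finset.univ.filter (fun c : Fin N => decide (c = c₀) = b), 1 / (N : ℝ) := by
  have hN0 : (N : ℝ) ≠ 0 := by positivity
  rw [Finset.sum_const, nsmul_eq_mul]
  cases b with
  | true =>
    have : (Finset.univ.filter fun c : Fin N => decide (c = c₀) = true) = {c₀} := by
      ext c; simp
    rw [this, Finset.card_singleton]
    unfold bw
    simp
  | false =>
    have h1 : (Finset.univ.filter fun c : Fin N => decide (c = c₀) = false) =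
        Finset.univ.erase c₀ := by
      ext c; simp
    rw [h1, Finset.card_erase_of_mem (Finset.mem_univ _), Finset.card_univ, Fintype.card_fin]
    unfold bw
    rw [Nat.cast_sub hN]
    simp only [Bool.false_eq_true, if_false, Nat.cast_one]
    field_simp

/-- the labels as a colour class -/
def cls {T N : ℕ} (χ : Fin T → Fin N) (c₀ : Fin N) : Fin T → Bool := fun i => decide (χ i = c₀)

lemma PW_colour {T N : ℕ} (hN : 1 ≤ N) (G : (Fin T → Bool) → ℝ) (c₀ : Fin N) :
    PW (fun _ : Fin T => bw (1 / (N : ℝ))) G =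
      PW (fun (_ : Fin T) (_ : Fin N) => 1 / (N : ℝ)) (fun χ => G (cls χ c₀)) :=
  PW_map (fun (_ : Fin T) (_ : Fin N) => 1 / (N : ℝ)) (fun _ : Fin T => bw (1 / (N : ℝ)))
    (fun c => decide (c = c₀)) (fun _ b => bw_map N hN c₀ b) G

lemma unif_sum {N : ℕ} (hN : 1 ≤ N) : ∑ _c : Fin N, 1 / (N : ℝ) = 1 := by
  have hN0 : (N : ℝ) ≠ 0 := by positivity
  rw [Finset.sum_const, Finset.card_univ, Fintype.card_fin, nsmul_eq_mul]
  field_simp

lemma bw_sum (θ : ℝ) : ∑ b : Bool, bw θ b = 1 := by
  rw [Fintype.sum_bool]; unfold bw; simp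

/-- lower tail of the number of labelled cells -/
lemma small_le {T N : ℕ} (hN : 1 ≤ N) :
    PW (fun _ : Fin T => bw (1 / (N : ℝ))) (fun bs => ind (((lab bs).card : ℝ) < T / (2 * N))) ≤
      Real.exp (-(T / N * (13 / 100))) := by
  have hN0 : (0 : ℝ) < N := by positivity
  have hθ1 : 1 / (N : ℝ) ≤ 1 := by
    rw [div_le_one hN0]; exact_mod_cast hN
  have hbw : ∀ (_ : Fin T) (b : Bool), 0 ≤ bw (1 / (N : ℝ)) b := by
    intro _ b
    unfold bw
    split_ifs
    · positivity
    · linarith
  have h1 : ∀ bs : Fin T → Bool, ind (((lab bs).card : ℝ) < T / (2 * N)) ≤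
      Real.exp (T / (2 * N)) * ∏ i, (if bs i then Real.exp (-1) else 1) := by
    intro bs
    have h2 : (∏ i, (if bs i then Real.exp (-1) else (1 : ℝ))) =
        Real.exp (-((lab bs).card : ℝ)) := by
      rw [Finset.prod_ite, Finset.prod_const_one, mul_one, Finset.prod_const, ← Real.exp_nat_mul]
      congr 1
      unfold lab
      ring
    rw [h2, ← Real.exp_add]
    by_cases h : ((lab bs).card : ℝ) < T / (2 * N)
    · rw [ind_true' h]
      apply Real.one_le_exp
      linarith
    · rw [ind_false' h]; exact (Real.exp_pos _).le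
  refine (PW_mono hbw h1).trans ?_
  rw [PW_const_mul, PW_prodfun (fun _ : Fin T => bw (1 / (N : ℝ)))
    (fun _ b => if b then Real.exp (-1) else 1)]
  simp only [Fintype.sum_bool]
  rw [Finset.prod_const, Finset.card_univ, Fintype.card_fin]
  have h3 : bw (1 / (N : ℝ)) true * (if true = true then Real.exp (-1) else 1) +
      bw (1 / (N : ℝ)) false * (if false = true then Real.exp (-1) else 1) ≤
      Real.exp (-(1 / (N : ℝ) * (63 / 100))) := by
    unfold bw
    simp only [if_true, Bool.false_eq_true, if_false, mul_one]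
    have h4 := Real.exp_neg_one_lt_d9
    have h5 := Real.add_one_le_exp (-(1 / (N : ℝ) * (63 / 100)))
    have h6 : (0 : ℝ) < 1 / N := by positivity
    nlinarith
  have h3' : 0 ≤ bw (1 / (N : ℝ)) true * (if true = true then Real.exp (-1) else 1) +
      bw (1 / (N : ℝ)) false * (if false = true then Real.exp (-1) else 1) := by
    unfold bw
    simp only [if_true, Bool.false_eq_true, if_false, mul_one]
    have := Real.exp_pos (-1)
    have h6 : (0 : ℝ) < 1 / N := by positivity
    nlinarith
  refine (mul_le_mul_of_nonneg_left (pow_le_pow_left₀ h3' h3 T) (Real.exp_pos _).le).trans ?_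
  rw [← Real.exp_nat_mul, ← Real.exp_add]
  apply Real.exp_le_exp.mpr
  have : (T : ℝ) / (2 * N) + T * -(1 / (N : ℝ) * (63 / 100)) = -(T / N * (13 / 100)) := by
    field_simp
    ring
  rw [this]

end H63C

open H63C Pool.Agent.LCSE

lemma H63C.exp_small {x : ℝ} (hx : 400 ≤ x) : Real.exp (-x) ≤ 1 / 400 := by
  rw [Real.exp_neg, ← one_div]
  apply one_div_le_one_div_of_le (by norm_num)
  have := Real.add_one_le_exp x
  linarith

set_option maxHeartbeats 1000000 in
theorem stmt_COL : Stmt_COL := by
  classical
  intro η hη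
  refine ⟨max 4000 (800 / η), by positivity, ?_⟩
  intro k n₁ T R N Γ D a n₀ b₀ C Ω _ _ _ hN hNT hR ha haR U X hdep hX
  set A₀ : ℝ := max 4000 (800 / η) with hA₀
  have hA1 : (4000 : ℝ) ≤ A₀ := le_max_left _ _
  have hA2 : 800 ≤ η * A₀ := by
    have : 800 / η ≤ A₀ := le_max_right _ _
    rw [div_le_iff₀ hη] at this
    linarith
  have hN1 : 1 ≤ N := by omega
  have hN2 : (2 : ℝ) ≤ N := by exact_mod_cast hN
  have hN0 : (0 : ℝ) < N := by positivity
  have hT0 : (0 : ℝ) < T := lt_of_lt_of_le (by positivity) hNT
  have hTN : (N : ℝ) ≤ T := le_trans (by nlinarith) hNT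
  have hTA : 8000 ≤ (T : ℝ) := le_trans (by nlinarith) hNT
  have hTdN : A₀ ≤ T / N := by rw [le_div_iff₀ hN0]; exact hNT
  have hSnn : ∀ c, 0 ≤ U.S c := fun c => (Real.exp_pos _).le.trans (U.S_low c)
  -- one pattern
  suffices hω : ∀ ω, (PW (fun _ : Fin T => bw (1 / (N : ℝ))) fun bs =>
        Ex k n₁ fun V => PW (U.κ ω V) fun c => ind (X ω bs c)) ≤ 1 / 100 by
    calc _ ≤ ∑ ω, U.P ω * (1 / 100) :=
          Finset.sum_le_sum fun ω _ => mul_le_mul_of_nonneg_left (hω ω) (U.P_nonneg ω)
      _ = 1 / 100 := by rw [← Finset.sum_mul, U.P_sum, one_mul]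
  intro ω
  set Sm : (Fin T → Bool) → Prop := fun bs => ((lab bs).card : ℝ) < T / (2 * N) with hSm
  have hbw : ∀ (_ : Fin T) (b : Bool), 0 ≤ bw (1 / (N : ℝ)) b := by
    intro _ b
    have hθ1 : 1 / (N : ℝ) ≤ 1 := by rw [div_le_one hN0]; linarith
    unfold bw
    split_ifs
    · positivity
    · linarith
  have hpt : ∀ bs, (Ex k n₁ fun V => PW (U.κ ω V) fun c => ind (X ω bs c)) ≤
      ind (Sm bs) + Ex k n₁ fun V => PW (U.κ ω V) fun c => ind (X ω bs c ∧ ¬ Sm bs) := by
    intro bs
    by_cases h : Sm bs
    · rw [ind_true' h]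
      have h1 : (Ex k n₁ fun V => PW (U.κ ω V) fun c => ind (X ω bs c)) ≤ 1 := by
        apply Ex_le_const0 zero_le_one
        intro V _
        have := PW_mono (w := U.κ ω V) (fun j c => U.κ_nonneg ω V j c)
          (f := fun c => ind (X ω bs c)) (g := fun _ => 1) (fun c => ind_le_one _)
        rwa [PW_one (fun j => U.κ_sum ω V j)] at this
      have h2 : 0 ≤ Ex k n₁ fun V => PW (U.κ ω V) fun c => ind (X ω bs c ∧ ¬ Sm bs) := by
        apply Ex_nonneg
        intro V _
        have := PW_mono (w := U.κ ω V) (fun j c => U.κ_nonneg ω V j c)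
          (f := fun _ => 0) (g := fun c => ind (X ω bs c ∧ ¬ Sm bs)) (fun c => ind_nn _)
        rwa [PW_const (fun j => U.κ_sum ω V j)] at this
      linarith
    · rw [ind_false' h, zero_add]
      apply Ex_mono
      intro V _
      apply PW_mono (fun j c => U.κ_nonneg ω V j c)
      intro c
      by_cases hx : X ω bs c
      · rw [ind_true' hx, ind_true' ⟨hx, h⟩]
      · rw [ind_false' hx]; exact ind_nn _
  refine (PW_mono hbw hpt).trans ?_
  rw [PW_add]
  have hsmall : PW (fun _ : Fin T => bw (1 / (N : ℝ))) (fun bs => ind (Sm bs)) ≤ 1 / 400 := by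
    refine (small_le hN1).trans (exp_small ?_)
    linarith
  -- the colours
  set G : (Fin T → Bool) → ℝ := fun bs =>
    Ex k n₁ fun V => PW (U.κ ω V) fun c => ind (X ω bs c ∧ ¬ Sm bs) with hG
  have hcol : PW (fun _ : Fin T => bw (1 / (N : ℝ))) G =
      PW (fun (_ : Fin T) (_ : Fin N) => 1 / (N : ℝ))
        (fun χ => 1 / (N : ℝ) * ∑ c₀ : Fin N, G (cls χ c₀)) := by
    rw [PW_const_mul, PW_sum]
    rw [Finset.sum_congr rfl fun c₀ _ => (PW_colour hN1 G c₀).symm]
    rw [Finset.sum_const, Finset.card_univ, Fintype.card_fin, nsmul_eq_mul]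
    field_simp
  have hχ : ∀ χ : Fin T → Fin N, 1 / (N : ℝ) * ∑ c₀ : Fin N, G (cls χ c₀) ≤ 1 / 200 + 1 / 400 := by
    intro χ
    set Y : (Fin T × Fin R → C) → ℝ := fun c =>
      ∑ c₀ : Fin N, ind (X ω (cls χ c₀) c ∧ ¬ Sm (cls χ c₀)) with hY
    have hYN : ∀ c, Y c ≤ N := by
      intro c
      calc Y c ≤ ∑ _c₀ : Fin N, (1 : ℝ) := Finset.sum_le_sum fun _ _ => ind_le_one _
        _ = N := by simp
    -- the exponential moment
    set lam : ℝ := η * R * (T / (2 * N)) with hlam
    have hlam0 : 0 ≤ lam := by positivity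
    have hprod : PW (fun _ : Fin T × Fin R => U.S) (fun c => Real.exp (lam * Y c)) ≤ 2 ^ N := by
      have e1 : (fun c => Real.exp (lam * Y c)) = fun c => ∏ c₀ ∈ (Finset.univ : Finset (Fin N)),
          (1 + (Real.exp lam - 1) * ind (X ω (cls χ c₀) c ∧ ¬ Sm (cls χ c₀))) := by
        funext c
        rw [hY]
        simp only
        rw [Finset.mul_sum, Real.exp_sum]
        refine Finset.prod_congr rfl fun c₀ _ => ?_
        by_cases h : X ω (cls χ c₀) c ∧ ¬ Sm (cls χ c₀)
        · rw [ind_true' h]; simp
        · rw [ind_false' h]; simp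
      rw [e1, PW_prod (fun _ => U.S_sum) Finset.univ (fun c₀ => labB R (cls χ c₀))]
      · calc _ ≤ ∏ _c₀ ∈ (Finset.univ : Finset (Fin N)), (2 : ℝ) := by
              apply Finset.prod_le_prod
              · intro c₀ _
                have := PW_mono (w := fun _ : Fin T × Fin R => U.S) (fun _ c => hSnn c)
                  (f := fun _ => 0)
                  (g := fun c => 1 + (Real.exp lam - 1) *
                    ind (X ω (cls χ c₀) c ∧ ¬ Sm (cls χ c₀)))
                  (fun c => by
                    have h1 := Real.one_le_exp hlam0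
                    have h2 := ind_nn (X ω (cls χ c₀) c ∧ ¬ Sm (cls χ c₀))
                    nlinarith)
                rwa [PW_const (fun _ => U.S_sum)] at this
              · intro c₀ _
                rw [PW_add, PW_one (fun _ => U.S_sum), PW_const_mul]
                have h1 : PW (fun _ : Fin T × Fin R => U.S)
                    (fun c => ind (X ω (cls χ c₀) c ∧ ¬ Sm (cls χ c₀))) ≤ Real.exp (-lam) := by
                  by_cases h : Sm (cls χ c₀)
                  · have : (fun c : Fin T × Fin R → C => ind (X ω (cls χ c₀) c ∧ ¬ Sm (cls χ c₀))) =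
                        fun _ => 0 := by
                      funext c
                      exact ind_false' fun h' => h'.2 h
                    rw [this, PW_const (fun _ => U.S_sum)]
                    exact (Real.exp_pos _).le
                  · have h2 := hX ω (cls χ c₀)
                    refine le_trans ?_ (h2.trans ?_)
                    · apply PW_mono (fun _ c => hSnn c)
                      intro c
                      by_cases hx : X ω (cls χ c₀) c
                      · rw [ind_true' hx, ind_true' ⟨hx, h⟩]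
                      · rw [ind_false' hx, ind_false' fun h' => hx h'.1]
                    · apply Real.exp_le_exp.mpr
                      apply neg_le_neg
                      rw [hSm] at h
                      simp only [not_lt] at h
                      rw [hlam]
                      exact mul_le_mul_of_nonneg_left h (by positivity)
                have h3 := Real.one_le_exp hlam0
                have h4 : (Real.exp lam - 1) * PW (fun _ : Fin T × Fin R => U.S)
                    (fun c => ind (X ω (cls χ c₀) c ∧ ¬ Sm (cls χ c₀))) ≤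
                    (Real.exp lam - 1) * Real.exp (-lam) :=
                  mul_le_mul_of_nonneg_left h1 (by linarith)
                have h5 : Real.exp lam * Real.exp (-lam) = 1 := by
                  rw [← Real.exp_add, add_neg_cancel, Real.exp_zero]
                have h6 := Real.exp_pos (-lam)
                nlinarith
        _ = 2 ^ N := by simp
      · intro j j' hjj
        rw [Finset.disjoint_left]
        intro i hi hi'
        unfold labB cls at hi hi'
        simp only [Finset.mem_filter, Finset.mem_univ, true_and, decide_eq_true_eq] at hi hi'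
        exact hjj (hi.symm.trans hi')
      · intro c₀ c c' hcc
        have h := hdep ω (cls χ c₀) c c' hcc
        simp only [h]
    have htail : PW (fun _ : Fin T × Fin R => U.S) (fun c => ind ((N : ℝ) / 200 ≤ Y c)) ≤
        Real.exp (N - lam * (N / 200)) := by
      have h1 : ∀ c, ind ((N : ℝ) / 200 ≤ Y c) ≤
          Real.exp (-(lam * (N / 200))) * Real.exp (lam * Y c) := by
        intro c
        rw [← Real.exp_add]
        by_cases h : (N : ℝ) / 200 ≤ Y c
        · rw [ind_true' h]
          apply Real.one_le_exp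
          nlinarith
        · rw [ind_false' h]; exact (Real.exp_pos _).le
      refine (PW_mono (fun _ c => hSnn c) h1).trans ?_
      rw [PW_const_mul]
      have h2 : (2 : ℝ) ^ N ≤ Real.exp N := by
        have h3 : (2 : ℝ) ≤ Real.exp 1 := by have := Real.add_one_le_exp (1 : ℝ); linarith
        calc (2 : ℝ) ^ N ≤ (Real.exp 1) ^ N := pow_le_pow_left₀ (by norm_num) h3 N
          _ = Real.exp N := by rw [← Real.exp_nat_mul, mul_one]
      calc Real.exp (-(lam * (N / 200))) * PW (fun _ : Fin T × Fin R => U.S)
            (fun c => Real.exp (lam * Y c)) ≤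
            Real.exp (-(lam * (N / 200))) * Real.exp N :=
            mul_le_mul_of_nonneg_left (hprod.trans h2) (Real.exp_pos _).le
        _ = Real.exp (N - lam * (N / 200)) := by rw [← Real.exp_add]; congr 1; ring
    have hdom := U.dom ω (fun c => ind ((N : ℝ) / 200 ≤ Y c)) (fun c => ind_nn _)
    have hfin : (Ex k n₁ fun V => PW (U.κ ω V) fun c => ind ((N : ℝ) / 200 ≤ Y c)) ≤ 1 / 400 := by
      refine hdom.trans ?_
      refine (mul_le_mul_of_nonneg_left htail (Real.exp_pos _).le).trans ?_
      rw [← Real.exp_add]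
      have e1 : lam * ((N : ℝ) / 200) = η * R * T / 400 := by
        rw [hlam]; field_simp; ring
      have h1 : η * (A₀ * (a + 1)) ≤ η * R := mul_le_mul_of_nonneg_left haR hη.le
      have h2 : 800 * (a + 1) ≤ η * R := by nlinarith
      have h3 : 800 * (a + 1) * T ≤ η * R * T := mul_le_mul_of_nonneg_right h2 hT0.le
      have h4 : a * T + (N - lam * (N / 200)) ≤ -T := by
        rw [e1]; nlinarith
      refine (Real.exp_le_exp.mpr h4).trans (exp_small ?_)
      linarith
    calc 1 / (N : ℝ) * ∑ c₀ : Fin N, G (cls χ c₀) =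
        Ex k n₁ (fun V => PW (U.κ ω V) fun c => 1 / (N : ℝ) * Y c) := by
          rw [hG]
          simp only
          rw [← Ex_finset_sum, ← Ex_const_mul]
          apply Ex_congr
          intro V _
          rw [PW_const_mul, hY, PW_sum]
      _ ≤ Ex k n₁ (fun V => 1 / 200 + PW (U.κ ω V) fun c => ind ((N : ℝ) / 200 ≤ Y c)) := by
          apply Ex_mono
          intro V _
          have h1 := PW_mono (w := U.κ ω V) (fun j c => U.κ_nonneg ω V j c)
            (f := fun c => 1 / (N : ℝ) * Y c)
            (g := fun c => 1 / 200 + ind ((N : ℝ) / 200 ≤ Y c)) (fun c => by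
              by_cases h : (N : ℝ) / 200 ≤ Y c
              · rw [ind_true' h]
                have h2 := hYN c
                have h3 : 1 / (N : ℝ) * Y c ≤ 1 := by
                  rw [one_div, inv_mul_le_iff₀ hN0, mul_one]; exact h2
                linarith
              · rw [ind_false' h]
                push Not at h
                have h3 : 1 / (N : ℝ) * Y c ≤ 1 / 200 := by
                  rw [one_div, inv_mul_le_iff₀ hN0]; linarith
                linarith)
          rw [PW_add, PW_const (fun j => U.κ_sum ω V j)] at h1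
          exact h1
      _ ≤ 1 / 200 + 1 / 400 := by
          rw [Ex_add]
          exact add_le_add (Ex_le_const0 (by norm_num) fun _ _ => le_rfl) hfin
  rw [hcol]
  have h1 := PW_mono (w := fun (_ : Fin T) (_ : Fin N) => 1 / (N : ℝ)) (fun _ _ => by positivity) hχ
  rw [PW_const (fun _ => unif_sum hN1)] at h1
  linarith

end Pool.Agent.LCSV
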