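import Pool.Agent.Work.MP_bec1e1_FIN_h39.Interface

/-!
# Block FIN_DET1: many near-ties give a family of disjoint chains
-/

set_option autoImplicit false
set_option maxHeartbeats 400000

open scoped BigOperators

namespace Pool.Agent.LCSV

namespace H63

open Pool.Agent.LCSE

/-- windows of an optimal path through the words `us`, with the possibility of replacing one of
them -/
lemma chain {k : ℕ} (us : List (List (Fin k))) (x₃ z : List (Fin k)) :
    ∃ (ws : List (List (Fin k))) (rest : List (Fin k)), ws.length = us.length ∧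
      z = ws.flatten ++ rest ∧ L (us.flatten ++ x₃) z ≤ us.flatten.length + L x₃ rest ∧
      ∀ t < us.length, ∀ u : List (Fin k),
        L (us.flatten ++ x₃) z + L u (ws.getD t []) ≤
          L ((us.take t).flatten ++ (u ++ ((us.drop (t + 1)).flatten ++ x₃))) z +
            L (us.getD t []) (ws.getD t []) := by
  induction us generalizing z with
  | nil => exact ⟨[], z, rfl, by simp, by simp, by simp⟩
  | cons u₀ us ih =>
    obtain ⟨g, hg, hsp⟩ := L_append_split u₀ (us.flatten ++ x₃) z
    obtain ⟨ws, rest, h1, h2, h3, h4⟩ := ih (z.drop g)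
    refine ⟨z.take g :: ws, rest, by simp [h1], ?_, ?_, ?_⟩
    · rw [List.flatten_cons, List.append_assoc, ← h2, List.take_append_drop]
    · rw [List.flatten_cons, List.append_assoc, hsp, List.length_append]
      have := L_le_left u₀ (z.take g)
      omega
    · intro t ht u
      rw [List.flatten_cons, List.append_assoc, hsp]
      cases t with
      | zero =>
        simp only [List.take_zero, List.flatten_nil, List.nil_append, List.getD_cons_zero,
          zero_add, List.drop_succ_cons, List.drop_zero]
        have := L_append_ge u (us.flatten ++ x₃) (z.take g) (z.drop g)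
        rw [List.take_append_drop] at this
        omega
      | succ t =>
        have ht' : t < us.length := by simpa using ht
        have h5 := h4 t ht' u
        simp only [List.take_succ_cons, List.flatten_cons, List.getD_cons_succ,
          List.drop_succ_cons]
        have := L_append_ge u₀ ((us.take t).flatten ++ (u ++ ((us.drop (t + 1)).flatten ++ x₃)))
          (z.take g) (z.drop g)
        rw [List.take_append_drop] at this
        rw [List.append_assoc]
        omega

/-- a near-tie has a narrow chain -/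
lemma narrow {k D K : ℕ} {x₁ x₃ y : List (Fin k)} {us : List (List (Fin k))} {κ ε P : ℝ}
    (hk : 0 < k) (hD : us.flatten.length = D)
    (hP : κ + P * D < (1 - ε) * D) (hW : Wide k D K ε us.flatten y)
    (hpr : (Ex k D fun r => (L (x₁ ++ r ++ (us.flatten ++ x₃)) y : ℝ)) ≤
      L (x₁ ++ (us.flatten ++ x₃)) y + P * D) {g : ℕ} (hg : NT x₁ (us.flatten ++ x₃) y κ g)
    (hgy : g + 2 * (K * D) ≤ y.length) {w rest : List (Fin k)} (hz : y.drop g = w ++ rest)
    (hL : L (us.flatten ++ x₃) (y.drop g) ≤ us.flatten.length + L x₃ rest) :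
    w.length < 2 * (K * D) := by
  by_contra hcon
  push Not at hcon
  obtain ⟨hW1, hW2⟩ := hW g hgy
  have hrest : L x₃ rest ≤ L x₃ (y.drop (g + 2 * (K * D))) := by
    apply L_mono (List.Sublist.refl _)
    have : rest = (y.drop g).drop w.length := by rw [hz, List.drop_left]
    rw [this, List.drop_drop, show g + w.length = g + 2 * (K * D) + (w.length - 2 * (K * D)) by omega,
      ← List.drop_drop]
    exact List.drop_sublist _ _
  have hy : y = y.take g ++ ((y.drop g).take (K * D) ++ (((y.drop (g + K * D)).take (K * D)) ++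
      y.drop (g + 2 * (K * D)))) := by
    have e1 : ((y.drop (g + K * D)).take (K * D)) ++ y.drop (g + 2 * (K * D)) =
        y.drop (g + K * D) := by
      rw [show g + 2 * (K * D) = (g + K * D) + K * D by ring, ← List.drop_drop (i := K * D)
        (j := g + K * D), List.take_append_drop]
    rw [e1, ← List.drop_drop (i := K * D) (j := g), List.take_append_drop, List.take_append_drop]
  have hkey : ∀ r : List (Fin k), (L x₁ (y.take g) : ℝ) + (L r ((y.drop g).take (K * D)) : ℝ) +
      D + L x₃ rest ≤ (L (x₁ ++ r ++ (us.flatten ++ x₃)) y : ℝ) := by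
    intro r
    have a1 := L_append_ge x₁ (r ++ (us.flatten ++ x₃)) (y.take g)
      ((y.drop g).take (K * D) ++ (((y.drop (g + K * D)).take (K * D)) ++
      y.drop (g + 2 * (K * D))))
    have a2 := L_append_ge r (us.flatten ++ x₃) ((y.drop g).take (K * D))
      (((y.drop (g + K * D)).take (K * D)) ++ y.drop (g + 2 * (K * D)))
    have a3 := L_append_ge us.flatten x₃ ((y.drop (g + K * D)).take (K * D))
      (y.drop (g + 2 * (K * D)))
    rw [← hy, ← List.append_assoc x₁ r (us.flatten ++ x₃)] at a1
    have : L x₁ (y.take g) + L r ((y.drop g).take (K * D)) + D + L x₃ rest ≤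
        L (x₁ ++ r ++ (us.flatten ++ x₃)) y := by omega
    exact_mod_cast this
  have h1 : (L x₁ (y.take g) : ℝ) + (1 - ε) * D + D + L x₃ rest ≤
      Ex k D fun r => (L (x₁ ++ r ++ (us.flatten ++ x₃)) y : ℝ) := by
    calc (L x₁ (y.take g) : ℝ) + (1 - ε) * D + D + L x₃ rest ≤
        (L x₁ (y.take g) + D + L x₃ rest : ℝ) +
          Ex k D (fun r => (L r ((y.drop g).take (K * D)) : ℝ)) := by linarith
      _ = Ex k D (fun r => (L x₁ (y.take g) + D + L x₃ rest : ℝ) +
          (L r ((y.drop g).take (K * D)) : ℝ)) := by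
          rw [Ex_add, Ex_const hk]
      _ ≤ _ := Ex_mono fun r _ => by have := hkey r; linarith
  have h2 : (L (us.flatten ++ x₃) (y.drop g) : ℝ) ≤ D + L x₃ rest := by
    rw [hD] at hL; exact_mod_cast hL
  unfold NT at hg
  linarith

lemma build {k nb D K : ℕ} {y : List (Fin k)} {Good : ℕ → List (List (Fin k)) → Prop}
    {G : Finset ℕ}
    (hG : ∀ g ∈ G, ∃ (ws : List (List (Fin k))) (rest : List (Fin k)), ws.length = nb ∧
      y.drop g = ws.flatten ++ rest ∧ ws.flatten.length ≤ 2 * (K * D) ∧ Good g ws) (m : ℕ) :
    ∀ p₀ : ℕ, m * (2 * (K * D) + 1) ≤ (G.filter fun g => p₀ ≤ g).card →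
      ∃ vs : List (List (Fin k)), vs.length = m * (nb + 1) ∧ vs.flatten <+: y.drop p₀ ∧
        ∀ i < m, ∃ g ∈ G, ∃ ws : List (List (Fin k)), ws.length = nb ∧ Good g ws ∧
          ws.flatten.length ≤ 2 * (K * D) ∧ ∀ t < nb, Wd nb vs i t = ws.getD t [] := by
  induction m with
  | zero => intro p₀ _; exact ⟨[], by simp, by simp, by simp⟩
  | succ m ih =>
    intro p₀ hc
    have hne : (G.filter fun g => p₀ ≤ g).Nonempty := by
      rw [← Finset.card_pos]
      have : 0 < (m + 1) * (2 * (K * D) + 1) := by positivity
      omega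
    set g := (G.filter fun g => p₀ ≤ g).min' hne with hgdef
    have hgmem := Finset.min'_mem _ hne
    rw [← hgdef, Finset.mem_filter] at hgmem
    obtain ⟨hgG, hgp⟩ := hgmem
    obtain ⟨ws, rest, hw1, hw2, hw3, hw4⟩ := hG g hgG
    set p₁ := g + ws.flatten.length with hp₁
    have hc' : m * (2 * (K * D) + 1) ≤ (G.filter fun g => p₁ ≤ g).card := by
      have hsub : (G.filter fun g' => p₀ ≤ g') ⊆ (G.filter fun g' => p₁ ≤ g') ∪
          Finset.Ico g (g + (2 * (K * D) + 1)) := by
        intro a ha
        have hga : g ≤ a := Finset.min'_le _ a ha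
        rw [Finset.mem_filter] at ha
        rw [Finset.mem_union, Finset.mem_filter, Finset.mem_Ico]
        by_cases h : p₁ ≤ a
        · exact Or.inl ⟨ha.1, h⟩
        · right; omega
      have h1 := (Finset.card_le_card hsub).trans (Finset.card_union_le _ _)
      rw [Nat.card_Ico] at h1
      have h2 : (m + 1) * (2 * (K * D) + 1) = m * (2 * (K * D) + 1) + (2 * (K * D) + 1) := by ring
      omega
    obtain ⟨vs, hv1, hv2, hv3⟩ := ih p₁ hc'
    refine ⟨(y.drop p₀).take (g - p₀) :: (ws ++ vs), ?_, ?_, ?_⟩
    · simp only [List.length_cons, List.length_append, hw1, hv1]; ring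
    · rw [List.flatten_cons, List.flatten_append]
      have e1 : y.drop g = (y.drop p₀).drop (g - p₀) := by
        rw [List.drop_drop]; congr 1; omega
      have e2 : y.drop p₁ = rest := by
        rw [hp₁, ← List.drop_drop, hw2, List.drop_left]
      obtain ⟨tl, htl⟩ := hv2
      refine ⟨tl, ?_⟩
      rw [List.append_assoc, List.append_assoc, htl, e2, ← hw2, e1, List.take_append_drop]
    · intro i hi
      cases i with
      | zero =>
        refine ⟨g, hgG, ws, hw1, hw4, hw3, fun t ht => ?_⟩
        unfold Wd
        rw [show 0 * (nb + 1) + 1 + t = t + 1 by ring, List.getD_cons_succ,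
          List.getD_append _ _ _ _ (by omega)]
      | succ i =>
        obtain ⟨g', hg', ws', a1, a2, a3, a4⟩ := hv3 i (by omega)
        refine ⟨g', hg', ws', a1, a2, a3, fun t ht => ?_⟩
        rw [← a4 t ht]
        unfold Wd
        rw [show (i + 1) * (nb + 1) + 1 + t = (nb + (i * (nb + 1) + 1 + t)) + 1 by ring,
          List.getD_cons_succ, List.getD_append_right _ _ _ _ (by omega)]
        congr 1
        omega

end H63

open H63 Pool.Agent.LCSE

theorem stmt_DET1 : Stmt_DET1 := by
  classical
  intro k nb D K m x₁ x₃ y us κ ε P hnb hD hD1 hK hκ hε hP hW hpr hend hcard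
  have hk : 0 < k := by
    rcases Nat.eq_zero_or_pos k with rfl | h
    · exfalso
      have h1 : us.flatten = [] := by
        cases h : us.flatten with
        | nil => rfl
        | cons a l => exact a.elim0
      rw [h1] at hD
      simp at hD
      omega
    · exact h
  set G := (Finset.range (y.length + 1)).filter fun g => NT x₁ (us.flatten ++ x₃) y κ g with hGdef
  have hGmem : ∀ g ∈ G, g ≤ y.length ∧ NT x₁ (us.flatten ++ x₃) y κ g := by
    intro g hg
    rw [hGdef, Finset.mem_filter, Finset.mem_range] at hg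
    exact ⟨by omega, hg.2⟩
  have hcard' : m * (2 * (K * D) + 1) ≤ (G.filter fun g => 0 ≤ g).card := by
    have : (G.filter fun g => 0 ≤ g) = G := Finset.filter_true_of_mem fun _ _ => Nat.zero_le _
    rw [this, hGdef]
    convert hcard using 1
    unfold nNT
    congr
  obtain ⟨vs, hv1, hv2, hv3⟩ := build (k := k) (nb := nb) (D := D) (K := K) (y := y)
    (Good := fun g ws => ∀ t < nb, ∀ u : List (Fin k),
        L (us.flatten ++ x₃) (y.drop g) + L u (ws.getD t []) ≤
          L ((us.take t).flatten ++ (u ++ ((us.drop (t + 1)).flatten ++ x₃))) (y.drop g) +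
            L (us.getD t []) (ws.getD t []))
    (G := G) (by
      intro g hg
      obtain ⟨ws, rest, h1, h2, h3, h4⟩ := chain us x₃ (y.drop g)
      refine ⟨ws, rest, h1.trans hnb, h2, ?_, ?_⟩
      · exact (narrow hk hD hP hW hpr (hGmem g hg).2 (hend g (hGmem g hg).1 (hGmem g hg).2)
          h2 h3).le
      · intro t ht u
        exact h4 t (by omega) u) m 0 hcard'
  refine ⟨vs, ⟨hv1, by simpa using hv2, ?_⟩, ?_⟩
  · intro i hi t ht
    obtain ⟨g, hg, ws, a1, a2, a3, a4⟩ := hv3 i hi
    rw [a4 t ht]
    refine le_trans ?_ a3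
    rw [List.getD_eq_getElem _ _ (by omega)]
    exact (List.sublist_flatten_of_mem (List.getElem_mem _)).length_le
  · intro i hi t ht u
    obtain ⟨g, hg, ws, a1, a2, a3, a4⟩ := hv3 i hi
    rw [a4 t ht]
    have h1 := a2 t ht u
    have h2 := (hGmem g hg).2
    unfold NT at h2
    have h3 := L_append_ge x₁ ((us.take t).flatten ++ (u ++ ((us.drop (t + 1)).flatten ++ x₃)))
      (y.take g) (y.drop g)
    rw [List.take_append_drop] at h3
    have h4 : x₁ ++ ((us.take t).flatten ++ (u ++ ((us.drop (t + 1)).flatten ++ x₃))) =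
        (x₁ ++ (us.take t).flatten) ++ u ++ ((us.drop (t + 1)).flatten ++ x₃) := by
      simp [List.append_assoc]
    rw [h4] at h3
    have h1' : (L (us.flatten ++ x₃) (y.drop g) : ℝ) + L u (ws.getD t []) ≤
          L ((us.take t).flatten ++ (u ++ ((us.drop (t + 1)).flatten ++ x₃))) (y.drop g) +
            L (us.getD t []) (ws.getD t []) := by exact_mod_cast h1
    have h3' : (L x₁ (y.take g) : ℝ) +
        L ((us.take t).flatten ++ (u ++ ((us.drop (t + 1)).flatten ++ x₃))) (y.drop g) ≤
        L ((x₁ ++ (us.take t).flatten) ++ u ++ ((us.drop (t + 1)).flatten ++ x₃)) y := by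
      exact_mod_cast h3
    linarith

end Pool.Agent.LCSV
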