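import Pool.Agent.Work.MP_bec1e1_FIN_h39.Interface

/-!
# Block FIN_DET2: the contradiction in one block
-/

set_option autoImplicit false
set_option maxHeartbeats 400000

open scoped BigOperators

namespace Pool.Agent.LCSV

namespace H63

open Pool.Agent.LCSE

lemma ind_true' {P : Prop} (h : P) : ind P = 1 := by unfold ind; rw [if_pos h]

lemma ind_false' {P : Prop} (h : ¬ P) : ind P = 0 := by unfold ind; rw [if_neg h]

lemma ind_nn (P : Prop) : 0 ≤ ind P := by unfold ind; split_ifs <;> norm_num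

lemma ind_imp {P Q : Prop} (h : P → Q) : ind P ≤ ind Q := by
  by_cases hP : P
  · rw [ind_true' hP, ind_true' (h hP)]
  · rw [ind_false' hP]; exact ind_nn Q

lemma ind_compl (P : Prop) : ind (¬ P) = 1 - ind P := by
  by_cases hP : P
  · rw [ind_true' hP, ind_false' (not_not.mpr hP)]; norm_num
  · rw [ind_false' hP, ind_true' hP]; norm_num

/-- disjoint events -/
lemma sum_prob_le_one {k n : ℕ} (hk : 0 < k) (F : Finset ℕ) (A : ℕ → List (Fin k) → Prop)
    (h : ∀ i ∈ F, ∀ i' ∈ F, ∀ u : List (Fin k), u.length = n → i < i' → A i u → ¬ A i' u) :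
    ∑ i ∈ F, Ex k n (fun u => ind (A i u)) ≤ 1 := by
  rw [← Ex_finset_sum]
  apply Ex_le_const hk
  intro u hu
  by_cases hex : ∃ i ∈ F, A i u
  · obtain ⟨i, hi, hA⟩ := hex
    rw [Finset.sum_eq_single_of_mem i hi, ind_true' hA]
    intro i' hi' hne
    apply ind_false'
    rcases lt_or_gt_of_ne hne with hlt | hlt
    · intro hA'
      exact h i' hi' i hi u hu hlt hA' hA
    · exact h i hi i' hi' u hu hlt hA
  · push Not at hex
    rw [Finset.sum_eq_zero fun i hi => ind_false' (hex i hi)]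
    norm_num

/-- upper tail for the inserted rows -/
lemma tail_ins (hMCD : Stmt_MCD) (hLIP : Stmt_LIP) {k n : ℕ} (hk : 0 < k)
    (x' x'' y : List (Fin k)) {t : ℝ} (ht : 0 ≤ t) :
    (Ex k n fun u => ind ((Ex k n fun u => (L (x' ++ u ++ x'') y : ℝ)) + t ≤
      (L (x' ++ u ++ x'') y : ℝ))) ≤ Real.exp (-(2 * t ^ 2 / n)) := by
  have h := (hMCD k n 0 (fun u _ => (L (x' ++ u ++ x'') y : ℝ)) 1 hk one_pos (by
      rintro x x₀ _ _ _ _ ⟨l₁, l₂, e, e', rfl, rfl⟩
      have := hLIP k (x' ++ l₁) (l₂ ++ x'') y e e'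
      simpa [List.append_assoc] using this) (by
      rintro x y₀ y' _ h0 _ ⟨l₁, l₂, e, e', rfl, rfl⟩
      simp at h0) t ht).1
  simpa using h

end H63

open H63 Pool.Agent.LCSE

set_option maxHeartbeats 2000000 in
theorem stmt_DET2 (hMCD : Stmt_MCD) (hLIP : Stmt_LIP) : Stmt_DET2 := by
  classical
  intro k C p q Pl Pu w s B K₁ nb m t Cp lam ζ ε ε₁ x' x'' y us vs hs hB hCp hlam hζ hζ1 hε hε1
    hε₁ h4 h64 h64' hεK hm h64'' hus hfam hPR hbad
  have hk : 0 < k := by have := w.hk; omega
  have hPl := w.pr.pos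
  have hPlu := w.pr.le
  have hPug := w.pr.lt
  have hg1 := w.phi.gam_lt
  have hs0 : (0 : ℝ) < s := by exact_mod_cast hs
  have hB1 : (1 : ℝ) ≤ B := by exact_mod_cast hB
  have hs1 : (1 : ℝ) ≤ s := by exact_mod_cast hs
  set L0 : ℝ := (L (x' ++ us t ++ x'') y : ℝ) with hL0
  have hPlB : 0 < Pl * B := by positivity
  have hPlB64 : 64 * (Cp + 1) ≤ Pl * B := by
    refine h64.trans ?_
    have : ζ * Pl * B = ζ * (Pl * B) := by ring
    rw [this]; nlinarith
  -- prices
  have hPR' : ∀ j' ≤ K₁ * B, (Ex k (j' * s) fun r => (L (x' ++ r ++ x'') y : ℝ)) ≤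
      L0 + (if B ≤ j' then Pu else Pl) * ((j' : ℝ) - B) * s + ε * s := by
    intro j' hj'
    by_contra hcon
    push Not at hcon
    exact hPR ⟨j', hj', hcon⟩
  -- every window is wide
  have hstar : ∀ i < m, Pl * B * s ≤ Cp * s + (Wd nb vs i t).length + ε * s := by
    intro i hi
    have h1 := hfam i hi []
    have h2 := hPR' 0 (Nat.zero_le _)
    rw [Nat.zero_mul, Ex_zero, if_neg (by omega)] at h2
    have h3 : (L (us t) (Wd nb vs i t) : ℝ) ≤ (Wd nb vs i t).length := by
      exact_mod_cast L_le_right _ _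
    have h4 : (0 : ℝ) ≤ (L ([] : List (Fin k)) (Wd nb vs i t) : ℝ) := Nat.cast_nonneg _
    push_cast at h2
    nlinarith
  have hws : ∀ i < m, s ≤ (Wd nb vs i t).length := by
    intro i hi
    have h1 := hstar i hi
    have : (s : ℝ) ≤ (Wd nb vs i t).length := by nlinarith
    exact_mod_cast this
  have hK₁ : 1 ≤ K₁ := by
    rcases Nat.eq_zero_or_pos K₁ with h | h
    · rw [h] at h4; norm_num at h4
    · exact h
  -- windows that are not bad are not too wide
  have hwK : ∀ i < m, ¬ Bad k s (B * s) nb K₁ lam ζ ε₁ us vs i t →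
      (Wd nb vs i t).length < K₁ * (B * s) := by
    intro i hi hnb
    by_contra hcon
    push Not at hcon
    have h1 : (gam k - ε₁) * (K₁ * (B * s) : ℕ) ≤
        Ex k (K₁ * (B * s)) fun u => (L u ((Wd nb vs i t).take (K₁ * (B * s))) : ℝ) := by
      by_contra h
      push Not at h
      exact hnb (Or.inr (Or.inr ⟨hcon, h⟩))
    have h2 := hPR' (K₁ * B) le_rfl
    rw [if_pos (Nat.le_mul_of_pos_left B hK₁)] at h2
    have h3 : L0 - Cp * s - (B * s : ℕ) + (gam k - ε₁) * (K₁ * (B * s) : ℕ) ≤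
        Ex k (K₁ * B * s) fun r => (L (x' ++ r ++ x'') y : ℝ) := by
      rw [Nat.mul_assoc]
      calc L0 - Cp * s - (B * s : ℕ) + (gam k - ε₁) * (K₁ * (B * s) : ℕ) ≤
          (L0 - Cp * s - (B * s : ℕ)) +
            Ex k (K₁ * (B * s)) (fun u => (L u ((Wd nb vs i t).take (K₁ * (B * s))) : ℝ)) := by
            linarith
        _ = Ex k (K₁ * (B * s)) (fun u => (L0 - Cp * s - (B * s : ℕ)) +
            (L u ((Wd nb vs i t).take (K₁ * (B * s))) : ℝ)) := by
            rw [Ex_add, Ex_const hk]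
        _ ≤ _ := by
            apply Ex_mono
            intro u _
            have a1 := hfam i hi u
            have a2 : (L (us t) (Wd nb vs i t) : ℝ) ≤ (B * s : ℕ) := by
              rw [← hus]; exact_mod_cast L_le_left _ _
            have a3 : (L u ((Wd nb vs i t).take (K₁ * (B * s))) : ℝ) ≤
                (L u (Wd nb vs i t) : ℝ) := by
              exact_mod_cast L_mono (List.Sublist.refl _) (List.take_sublist _ _)
            linarith
    have h5 : ζ * Pl * B ≤ B := by
      have : ζ * Pl ≤ 1 := by nlinarith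
      nlinarith
    push_cast at h2 h3
    have h6 : (L0 - Cp * s - B * s + (gam k - ε₁) * (K₁ * (B * s))) ≤
        L0 + Pu * (K₁ * B - B) * s + ε * s := h3.trans h2
    have h7 : (K₁ * (gam k - Pu)) * (B * s) ≤ (B * s) + (ε₁ * K₁) * (B * s) + Cp * s + ε * s := by
      have : 0 < Pu := hPl.trans_le hPlu
      nlinarith [mul_pos this (mul_pos (lt_of_lt_of_le one_pos hB1) hs0)]
    have h8 : (0 : ℝ) < B * s := by positivity
    have h9 : (4 : ℝ) * (B * s) ≤ (K₁ * (gam k - Pu)) * (B * s) :=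
      mul_le_mul_of_nonneg_right h4 h8.le
    have h10 : (ε₁ * K₁) * (B * s) ≤ 1 * (B * s) := mul_le_mul_of_nonneg_right hεK h8.le
    have h11 : (2 : ℝ) * (B * s) ≤ (Cp + 1) * s := by nlinarith
    have h12 : (2 : ℝ) * B ≤ Cp + 1 := by
      have : ((2 : ℝ) * B) * s ≤ (Cp + 1) * s := by linarith
      exact le_of_mul_le_mul_right this hs0
    linarith
  -- the pigeonhole
  set X : ℝ := lam * ζ * (K₁ * B * s : ℕ) with hX
  set Gd := (Finset.range m).filter fun i => ¬ Bad k s (B * s) nb K₁ lam ζ ε₁ us vs i t with hGd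
  have hGdc : m < 2 * Gd.card := by
    have h1 := Finset.card_filter_add_card_filter_not (s := Finset.range m)
      (fun i => Bad k s (B * s) nb K₁ lam ζ ε₁ us vs i t)
    rw [Finset.card_range, ← hGd] at h1
    omega
  obtain ⟨j, hjmem, hjcard⟩ : ∃ j ∈ Finset.range (K₁ * B), 4 * Real.exp X ≤
      ((Gd.filter fun i => (Wd nb vs i t).length / s = j).card : ℝ) := by
    apply Finset.exists_le_card_fiber_of_nsmul_le_card_of_maps_to
    · intro i hi
      rw [hGd, Finset.mem_filter, Finset.mem_range] at hi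
      rw [Finset.mem_range, Nat.div_lt_iff_lt_mul (by omega), Nat.mul_assoc]
      exact hwK i hi.1 hi.2
    · rw [Finset.nonempty_range_iff]
      have : 0 < K₁ * B := by positivity
      omega
    · rw [Finset.card_range, nsmul_eq_mul]
      have h1 : (m : ℝ) < 2 * Gd.card := by exact_mod_cast hGdc
      push_cast
      linarith
  set F := Gd.filter fun i => (Wd nb vs i t).length / s = j with hF
  have hFm : ∀ i ∈ F, i < m ∧ ¬ Bad k s (B * s) nb K₁ lam ζ ε₁ us vs i t ∧
      (Wd nb vs i t).length / s = j := by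
    intro i hi
    rw [hF, Finset.mem_filter, hGd, Finset.mem_filter, Finset.mem_range] at hi
    exact ⟨hi.1.1, hi.1.2, hi.2⟩
  rw [Finset.mem_range] at hjmem
  -- some survivor event is small
  obtain ⟨i, hiF, hi⟩ : ∃ i ∈ F, (Ex k (j * s) fun u =>
      ind (Surv k s (B * s) nb ζ ε₁ us vs i t u)) < 1 / 2 := by
    by_contra hcon
    push Not at hcon
    have h1 : ∀ i ∈ F, Real.exp (-X) ≤ Ex k (j * s) fun u =>
        ind (Surv k s (B * s) nb ζ ε₁ us vs i t u ∧ Lk k ζ u (Wd nb vs i t)) := by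
      intro i hi
      obtain ⟨him, hnb, hcl⟩ := hFm i hi
      have h2 := hcon i hi
      by_contra h3
      push Not at h3
      apply hnb
      refine Or.inr (Or.inl ⟨hws i him, hwK i him hnb, ?_, ?_⟩)
      · rw [hcl]; exact h2
      · rw [hcl]
        refine h3.trans_le (Real.exp_le_exp.mpr ?_)
        rw [hX]
        apply neg_le_neg
        apply mul_le_mul_of_nonneg_left _ (by positivity)
        exact_mod_cast Nat.mul_le_mul_right s hjmem.le
    have h2 := sum_prob_le_one (n := j * s) hk F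
      (fun i u => Surv k s (B * s) nb ζ ε₁ us vs i t u ∧ Lk k ζ u (Wd nb vs i t)) (by
        intro i hi i' hi' u hu hlt hA hA'
        obtain ⟨him, hnb, hcl⟩ := hFm i hi
        obtain ⟨him', hnb', hcl'⟩ := hFm i' hi'
        have hnA : ¬ BadA k (B * s) ε₁ (us t) (Wd nb vs i t) := fun h => hnb (Or.inl h)
        exact hA'.1 i hlt (hcl.trans hcl'.symm) hnA hA.2)
    have h3 : (F.card : ℝ) * Real.exp (-X) ≤ 1 := by
      refine le_trans ?_ h2
      rw [← nsmul_eq_mul]
      exact Finset.card_nsmul_le_sum _ _ _ h1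
    have h5 : 4 * Real.exp X * Real.exp (-X) ≤ (F.card : ℝ) * Real.exp (-X) :=
      mul_le_mul_of_nonneg_right hjcard (Real.exp_pos _).le
    rw [mul_assoc, ← Real.exp_add, add_neg_cancel, Real.exp_zero] at h5
    linarith
  obtain ⟨him, hnb, hcl⟩ := hFm i hiF
  -- `j` is large
  have hjlow : Pl * B - 2 * (Cp + 1) ≤ j := by
    have h1 := hstar i him
    have h2 : (Wd nb vs i t).length < (j + 1) * s := by
      have := Nat.lt_div_mul_add (a := (Wd nb vs i t).length) (b := s) (by omega)
      rw [hcl] at this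
      linarith
    have h3 : ((Wd nb vs i t).length : ℝ) < (j + 1) * s := by exact_mod_cast h2
    have h5 : Pl * B * s < (Cp + 2 + j) * s := by nlinarith
    have h6 : Pl * B < Cp + 2 + j := lt_of_mul_lt_mul_right h5 hs0.le
    linarith
  have hζj : ζ * (Pl * B) - ζ * Pl * B / 32 ≤ ζ * j := by
    have h1 : ζ * (Pl * B - 2 * (Cp + 1)) ≤ ζ * j := mul_le_mul_of_nonneg_left hjlow hζ.le
    nlinarith
  have hζPB : 0 < ζ * Pl * B := by positivity
  have hζj' : ζ * Pl * B * (31 / 32) ≤ ζ * j := by nlinarith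
  have hj0 : 0 < j := by
    rcases Nat.eq_zero_or_pos j with h | h
    · rw [h] at hζj'; norm_num at hζj'; nlinarith
    · exact h
  have hj0' : (0 : ℝ) < j := by exact_mod_cast hj0
  -- the value on the complement of the survivor event
  set P : ℝ := if B ≤ j then Pu else Pl with hP
  have hPg : P < gam k := by rw [hP]; split_ifs <;> linarith
  have hP0 : 0 < P := by rw [hP]; split_ifs <;> linarith
  have hline : ∀ a b : ℝ, 0 ≤ a → 0 ≤ b → Phi k a b ≤ P * a + (gam k - P) * b := by
    intro a b ha hb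
    rw [hP]
    split_ifs
    · exact w.pr.lineHi a b ha hb
    · exact w.pr.lineLo a b ha hb
  have hEf := hPR' j hjmem.le
  rw [← hP] at hEf
  have hval : ∀ u : List (Fin k), u.length = j * s →
      ¬ Surv k s (B * s) nb ζ ε₁ us vs i t u →
      L0 + P * (j - B) * s + ζ * j * s - Cp * s - (gam k - P) * s - ε₁ * (B * s) ≤
        (L (x' ++ u ++ x'') y : ℝ) := by
    intro u hu hns
    unfold Surv at hns
    push Not at hns
    obtain ⟨i', hi', hcl', hA, hLk⟩ := hns
    have h1 := hfam i' (hi'.trans him) u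
    have h2 : (L (us t) (Wd nb vs i' t) : ℝ) ≤
        Phi k ((B * s : ℕ) : ℝ) (Wd nb vs i' t).length + ε₁ * ((B * s : ℕ) : ℝ) := by
      by_contra h
      push Not at h
      exact hA h
    have h3 : (gam k + ζ) * (j * s) ≤ (L u (Wd nb vs i' t) : ℝ) := by
      unfold Lk at hLk
      rw [hu] at hLk
      push_cast at hLk
      refine hLk.trans ?_
      exact_mod_cast L_mono (List.Sublist.refl _) (List.take_sublist _ _)
    have h5 := hline ((B * s : ℕ) : ℝ) (Wd nb vs i' t).length (Nat.cast_nonneg _)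
      (Nat.cast_nonneg _)
    have h6 : ((Wd nb vs i' t).length : ℝ) ≤ (j + 1) * s := by
      have h7 : (Wd nb vs i' t).length < (j + 1) * s := by
        have := Nat.lt_div_mul_add (a := (Wd nb vs i' t).length) (b := s) (by omega)
        rw [hcl', hcl] at this
        linarith
      exact_mod_cast h7.le
    have h8 : (gam k - P) * ((Wd nb vs i' t).length : ℝ) ≤ (gam k - P) * ((j + 1) * s) :=
      mul_le_mul_of_nonneg_left h6 (by linarith)
    push_cast at h2 h5
    have e : P * (j - B) * s + ζ * j * s - (gam k - P) * s =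
        (gam k + ζ) * (j * s) - P * (B * s) - (gam k - P) * ((j + 1) * s) := by ring
    linarith
  -- concentration
  have hΔ : ζ * j / 2 * s ≤ (ζ * j * s - Cp * s - (gam k - P) * s - ε₁ * (B * s)) - ε * s := by
    have h1 : ε₁ * B ≤ ζ * Pl * B / 64 := by nlinarith
    have h2 : Cp + (gam k - P) + ε₁ * B + ε ≤ ζ * Pl * B * (3 / 64) := by linarith
    have h3 : ζ * j / 2 ≤ ζ * j - Cp - (gam k - P) - ε₁ * B - ε := by linarith
    have h5 := mul_le_mul_of_nonneg_right h3 hs0.le
    nlinarith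
  have htail := tail_ins (n := j * s) hMCD hLIP hk x' x'' y (t := ζ * j / 2 * s) (by positivity)
  have h1 : (Ex k (j * s) fun u => ind (¬ Surv k s (B * s) nb ζ ε₁ us vs i t u)) ≤
      Real.exp (-(2 * (ζ * j / 2 * s) ^ 2 / (j * s : ℕ))) := by
    refine le_trans (Ex_mono fun u hu => ?_) htail
    apply ind_imp
    intro hns
    have h2 := hval u hu hns
    linarith
  have h2 : (Ex k (j * s) fun u => ind (¬ Surv k s (B * s) nb ζ ε₁ us vs i t u)) =
      1 - Ex k (j * s) fun u => ind (Surv k s (B * s) nb ζ ε₁ us vs i t u) := by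
    simp only [ind_compl]
    rw [Ex_sub, Ex_const hk]
  have h3 : (2 * (ζ * j / 2 * s) ^ 2 / (j * s : ℕ) : ℝ) = ζ * (ζ * j) * s / 2 := by
    push_cast
    field_simp
  have h5 : (1 : ℝ) ≤ ζ * (ζ * j) * s / 2 := by
    have a1 : ζ * (ζ * Pl * B * (31 / 32)) * s ≤ ζ * (ζ * j) * s :=
      mul_le_mul_of_nonneg_right (mul_le_mul_of_nonneg_left hζj' hζ.le) hs0.le
    nlinarith
  have h6 : Real.exp (-(2 * (ζ * j / 2 * s) ^ 2 / (j * s : ℕ))) ≤ Real.exp (-1) := by
    apply Real.exp_le_exp.mpr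
    rw [h3]
    linarith
  have h7 := Real.exp_neg_one_lt_d9
  linarith

end Pool.Agent.LCSV
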